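import Mathlib

/-!
Pipage rounding for quadratic forms with nonnegative entries and zero diagonal.
-/

set_option autoImplicit false
set_option linter.unusedSectionVars false
set_option linter.unusedSimpArgs false

namespace Pool.Agent.TH853.HS

open Finset

variable {ι : Type*} [Fintype ι] [DecidableEq ι]

/-- The bilinear form of `A`. -/
noncomputable def B (A : ι → ι → ℝ) (x y : ι → ℝ) : ℝ := ∑ i, ∑ j, A i j * x i * y j

/-- The indicator function of `W`. -/
noncomputable def ind (W : Finset ι) : ι → ℝ := fun i => if i ∈ W then 1 else 0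

lemma B_add_left (A : ι → ι → ℝ) (x x' y : ι → ℝ) :
    B A (x + x') y = B A x y + B A x' y := by
  simp only [B, Pi.add_apply, mul_add, add_mul, sum_add_distrib]

lemma B_add_right (A : ι → ι → ℝ) (x y y' : ι → ℝ) :
    B A x (y + y') = B A x y + B A x y' := by
  simp only [B, Pi.add_apply, mul_add, sum_add_distrib]

lemma B_smul_left (A : ι → ι → ℝ) (s : ℝ) (x y : ι → ℝ) :
    B A (s • x) y = s * B A x y := by
  simp only [B, Pi.smul_apply, smul_eq_mul, mul_sum]
  refine sum_congr rfl fun i _ => sum_congr rfl fun j _ => ?_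
  ring

lemma B_smul_right (A : ι → ι → ℝ) (s : ℝ) (x y : ι → ℝ) :
    B A x (s • y) = s * B A x y := by
  simp only [B, Pi.smul_apply, smul_eq_mul, mul_sum]
  refine sum_congr rfl fun i _ => sum_congr rfl fun j _ => ?_
  ring

lemma B_symm {A : ι → ι → ℝ} (hs : ∀ i j, A i j = A j i) (x y : ι → ℝ) :
    B A x y = B A y x := by
  simp only [B]
  rw [sum_comm]
  refine sum_congr rfl fun i _ => sum_congr rfl fun j _ => ?_
  rw [hs j i]; ring

lemma B_mono {A : ι → ι → ℝ} (hn : ∀ i j, 0 ≤ A i j) {x x' : ι → ℝ} (h0 : ∀ i, 0 ≤ x i)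
    (h : ∀ i, x i ≤ x' i) : B A x x ≤ B A x' x' := by
  refine sum_le_sum fun i _ => sum_le_sum fun j _ => ?_
  have h1 : A i j * x i ≤ A i j * x' i := mul_le_mul_of_nonneg_left (h i) (hn i j)
  exact mul_le_mul h1 (h j) (h0 j) (mul_nonneg (hn i j) ((h0 i).trans (h i)))

/-- The difference of two unit vectors. -/
noncomputable def dl (i j : ι) : ι → ℝ := fun l => (if l = i then 1 else 0) - (if l = j then 1 else 0)

lemma B_dl_dl {A : ι → ι → ℝ} (hs : ∀ i j, A i j = A j i) (h0 : ∀ i, A i i = 0) {i j : ι} :
    B A (dl i j) (dl i j) = - 2 * A i j := by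
  simp only [B, dl, mul_sub, mul_ite, mul_one, mul_zero, sub_mul, ite_mul, zero_mul,
    sum_sub_distrib, sum_ite_eq', mem_univ, if_true]
  simp [h0, hs j i]
  ring

/-- The fractional coordinates. -/
noncomputable def frac (x : ι → ℝ) : Finset ι := univ.filter fun i => 0 < x i ∧ x i < 1

/-- One step of the rounding. -/
lemma step {A : ι → ι → ℝ} (hs : ∀ i j, A i j = A j i) (h0 : ∀ i, A i i = 0)
    (hn : ∀ i j, 0 ≤ A i j) {x : ι → ℝ} (hx : ∀ i, 0 ≤ x i ∧ x i ≤ 1) {i j : ι} (hij : i ≠ j)
    (hi : i ∈ frac x) (hj : j ∈ frac x) (hL : B A x (dl i j) ≤ 0) :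
    ∃ y : ι → ℝ, (∀ i, 0 ≤ y i ∧ y i ≤ 1) ∧ ∑ i, y i = ∑ i, x i ∧ B A y y ≤ B A x x ∧
      (frac y).card < (frac x).card := by
  have hi' := (mem_filter.mp hi).2
  have hj' := (mem_filter.mp hj).2
  set s : ℝ := min (1 - x i) (x j) with hsdef
  have hs0 : 0 < s := lt_min (by linarith [hi'.2]) hj'.1
  have hs1 : s ≤ 1 - x i := min_le_left _ _
  have hs2 : s ≤ x j := min_le_right _ _
  have yi : (x + s • dl i j) i = x i + s := by simp [dl, hij]
  have yj : (x + s • dl i j) j = x j - s := by simp [dl, hij.symm]; ring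
  have yl : ∀ l, l ≠ i → l ≠ j → (x + s • dl i j) l = x l := by
    intro l h1 h2; simp [dl, h1, h2]
  refine ⟨x + s • dl i j, ?_, ?_, ?_, ?_⟩
  · intro l
    by_cases h1 : l = i
    · subst h1; rw [yi]; exact ⟨by linarith [hi'.1], by linarith⟩
    by_cases h2 : l = j
    · subst h2; rw [yj]; exact ⟨by linarith, by linarith [hj'.2]⟩
    rw [yl l h1 h2]; exact hx l
  · simp only [Pi.add_apply, Pi.smul_apply, smul_eq_mul, sum_add_distrib, ← mul_sum]
    simp [dl]
  · rw [B_add_left, B_add_right, B_add_right, B_smul_left, B_smul_left, B_smul_right,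
      B_smul_right, B_dl_dl hs h0, B_symm hs (dl i j) x]
    nlinarith [mul_nonpos_of_nonneg_of_nonpos hs0.le hL, mul_nonneg (mul_nonneg hs0.le hs0.le) (hn i j)]
  · apply card_lt_card
    rw [ssubset_iff_of_subset]
    · rcases min_choice (1 - x i) (x j) with h | h
      · refine ⟨i, hi, ?_⟩
        rw [frac, mem_filter, not_and]
        intro _
        rw [yi, hsdef, h]
        intro hc; linarith [hc.2]
      · refine ⟨j, hj, ?_⟩
        rw [frac, mem_filter, not_and]
        intro _
        rw [yj, hsdef, h]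
        intro hc; linarith [hc.1]
    · intro l hl
      have hl' := (mem_filter.mp hl).2
      by_cases h1 : l = i
      · rw [h1]; exact hi
      by_cases h2 : l = j
      · rw [h2]; exact hj
      rw [yl l h1 h2] at hl'
      exact mem_filter.mpr ⟨mem_univ _, hl'⟩

theorem pipage {A : ι → ι → ℝ} (hs : ∀ i j, A i j = A j i) (h0 : ∀ i, A i i = 0)
    (hn : ∀ i j, 0 ≤ A i j) : ∀ (m : ℕ) (x : ι → ℝ), (frac x).card = m →
      (∀ i, 0 ≤ x i ∧ x i ≤ 1) →
      ∃ W : Finset ι, (W.card : ℝ) ≤ ∑ i, x i ∧ ∑ i, x i < W.card + 1 ∧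
        B A (ind W) (ind W) ≤ B A x x := by
  intro m
  induction m using Nat.strong_induction_on with
  | _ m ih =>
    intro x hm hx
    by_cases h : 1 < (frac x).card
    · obtain ⟨i, hi, j, hj, hij⟩ := one_lt_card.mp h
      rcases le_total (B A x (dl i j)) 0 with hL | hL
      · obtain ⟨y, hy, hsum, hB, hc⟩ := step hs h0 hn hx hij hi hj hL
        obtain ⟨W, h1, h2, h3⟩ := ih _ (hm ▸ hc) y rfl hy
        exact ⟨W, hsum ▸ h1, hsum ▸ h2, h3.trans hB⟩
      · have hL' : B A x (dl j i) ≤ 0 := by
          have : dl j i = (-1 : ℝ) • dl i j := by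
            ext l; simp [dl]
          rw [this, B_smul_right]; linarith
        obtain ⟨y, hy, hsum, hB, hc⟩ := step hs h0 hn hx hij.symm hj hi hL'
        obtain ⟨W, h1, h2, h3⟩ := ih _ (hm ▸ hc) y rfl hy
        exact ⟨W, hsum ▸ h1, hsum ▸ h2, h3.trans hB⟩
    · have hc : (frac x).card ≤ 1 := not_lt.mp h
      set W : Finset ι := univ.filter fun i => x i = 1 with hW
      have hle : ∀ i, ind W i ≤ x i := by
        intro i
        unfold ind
        split_ifs with hi
        · exact le_of_eq (mem_filter.mp hi).2.symm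
        · exact (hx i).1
      have h0' : ∀ i, 0 ≤ ind W i := by
        intro i; unfold ind; split_ifs <;> norm_num
      have hcard : ∑ i, ind W i = W.card := by
        simp [ind]
      refine ⟨W, ?_, ?_, B_mono hn h0' hle⟩
      · rw [← hcard]; exact sum_le_sum fun i _ => hle i
      · rw [← hcard]
        have hd : ∑ i, (x i - ind W i) < 1 := by
          have e : ∑ i, (x i - ind W i) = ∑ i ∈ frac x, x i := by
            rw [← sum_subset (subset_univ (frac x))]
            · refine sum_congr rfl fun i hi => ?_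
              have hi' := (mem_filter.mp hi).2
              have : i ∉ W := fun hw => by
                have := (mem_filter.mp hw).2
                linarith [hi'.2]
              simp [ind, this]
            · intro i _ hi
              by_cases h1 : x i = 1
              · have : i ∈ W := mem_filter.mpr ⟨mem_univ _, h1⟩
                simp [ind, this, h1]
              · have hnot : i ∉ W := fun hw => h1 (mem_filter.mp hw).2
                have : x i = 0 := by
                  by_contra h2
                  exact hi (mem_filter.mpr ⟨mem_univ _, lt_of_le_of_ne (hx i).1 (Ne.symm h2),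
                    lt_of_le_of_ne (hx i).2 h1⟩)
                simp [ind, hnot, this]
          rw [e]
          rcases Nat.le_one_iff_eq_zero_or_eq_one.mp hc with h1 | h1
          · rw [card_eq_zero.mp h1]; simp
          · obtain ⟨a, ha⟩ := card_eq_one.mp h1
            rw [ha, sum_singleton]
            have : a ∈ frac x := by rw [ha]; exact mem_singleton_self a
            exact (mem_filter.mp this).2.2
        rw [sum_sub_distrib] at hd
        linarith

end Pool.Agent.TH853.HS
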