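import Mathlib
import Pool.Agent.TH853.HS.Pipage

/-!
The counting step: in a dense graph whose adjacency form is nearly nonnegative on balanced vectors
some neighbourhood is dense.
-/

set_option autoImplicit false
set_option linter.unusedSectionVars false
set_option linter.unusedSimpArgs false

namespace Pool.Agent.TH853.HS

open Finset

variable {ι : Type*} [Fintype ι] [DecidableEq ι]

lemma ind_nonneg (W : Finset ι) (i : ι) : 0 ≤ ind W i := by
  unfold ind; split_ifs <;> norm_num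

lemma ind_le_one (W : Finset ι) (i : ι) : ind W i ≤ 1 := by
  unfold ind; split_ifs <;> norm_num

lemma ind_sq (W : Finset ι) (i : ι) : ind W i * ind W i = ind W i := by
  unfold ind; split_ifs <;> norm_num

lemma sum_ind (W : Finset ι) : ∑ i, ind W i = W.card := by
  simp [ind]

/-- The neighbours of `v` in `S`. -/
noncomputable def nb (A : ι → ι → ℝ) (S : Finset ι) (v : ι) : Finset ι :=
  open Classical in S.filter fun w => A v w = 1

lemma ind_nb {A : ι → ι → ℝ} (h01 : ∀ i j, A i j = 0 ∨ A i j = 1) (S : Finset ι) (v w : ι) :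
    ind (nb A S v) w = ind S w * A v w := by
  unfold ind nb
  rcases h01 v w with h | h <;> by_cases hw : w ∈ S <;> simp [h, hw]

lemma B_le {A : ι → ι → ℝ} (h01 : ∀ i j, A i j = 0 ∨ A i j = 1) (X Y : Finset ι) :
    B A (ind X) (ind Y) ≤ (X.card : ℝ) * Y.card := by
  have : (X.card : ℝ) * Y.card = ∑ i, ∑ j, ind X i * ind Y j := by
    rw [← sum_ind X, ← sum_ind Y, sum_mul_sum]
  rw [this]
  refine sum_le_sum fun i _ => sum_le_sum fun j _ => ?_
  rcases h01 i j with h | h
  · rw [h]; simpa using mul_nonneg (ind_nonneg X i) (ind_nonneg Y j)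
  · rw [h]; simp

lemma B_nonneg {A : ι → ι → ℝ} (h01 : ∀ i j, A i j = 0 ∨ A i j = 1) (X Y : Finset ι) :
    0 ≤ B A (ind X) (ind Y) := by
  refine sum_nonneg fun i _ => sum_nonneg fun j _ => ?_
  rcases h01 i j with h | h <;> rw [h]
  · simp
  · simpa using mul_nonneg (ind_nonneg X i) (ind_nonneg Y j)

/-- Two sets with few edges inside have few edges between them. -/
lemma pair {A : ι → ι → ℝ} (hs : ∀ i j, A i j = A j i) (h01 : ∀ i j, A i j = 0 ∨ A i j = 1)
    {m κ δ : ℝ} (hm : (Fintype.card ι : ℝ) = m) (hm0 : 0 < m)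
    (NP : ∀ t : ι → ℝ, (∀ i, |t i| ≤ 1) → ∑ i, t i = 0 → - δ * m ^ 2 ≤ B A t t)
    (X Y : Finset ι) (hX : B A (ind X) (ind X) ≤ κ * m ^ 2) (hY : B A (ind Y) (ind Y) ≤ κ * m ^ 2) :
    (B A (ind X) (ind Y)) ^ 2 ≤ (κ + δ / 2) * m ^ 4 := by
  set a : ℝ := (X.card : ℝ) with ha
  set c : ℝ := (Y.card : ℝ) with hc
  have ha0 : 0 ≤ a := by positivity
  have hc0 : 0 ≤ c := by positivity
  have ham : a ≤ m := by rw [← hm, ha]; exact_mod_cast card_le_univ X
  have hcm : c ≤ m := by rw [← hm, hc]; exact_mod_cast card_le_univ Y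
  have ha1 : a / m ≤ 1 := (div_le_one hm0).mpr ham
  have hc1 : c / m ≤ 1 := (div_le_one hm0).mpr hcm
  have ha2 : 0 ≤ a / m := by positivity
  have hc2 : 0 ≤ c / m := by positivity
  set e := B A (ind X) (ind Y) with he
  have he0 : 0 ≤ e := B_nonneg h01 X Y
  have hle : e ≤ a * c := B_le h01 X Y
  have h1 := NP ((c / m) • ind X + (-(a / m)) • ind Y) ?_ ?_
  · rw [B_add_left, B_add_right, B_add_right, B_smul_left, B_smul_left, B_smul_left, B_smul_left,
      B_smul_right, B_smul_right, B_smul_right, B_smul_right, B_symm hs (ind Y) (ind X),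
      ← he] at h1
    have hEX : 0 ≤ B A (ind X) (ind X) := B_nonneg h01 X X
    have hEY : 0 ≤ B A (ind Y) (ind Y) := B_nonneg h01 Y Y
    have h2 : (c / m) * ((c / m) * B A (ind X) (ind X)) ≤ κ * m ^ 2 := by
      calc (c / m) * ((c / m) * B A (ind X) (ind X)) ≤ 1 * (1 * B A (ind X) (ind X)) := by
            gcongr
        _ ≤ κ * m ^ 2 := by linarith
    have h3 : (a / m) * ((a / m) * B A (ind Y) (ind Y)) ≤ κ * m ^ 2 := by
      calc (a / m) * ((a / m) * B A (ind Y) (ind Y)) ≤ 1 * (1 * B A (ind Y) (ind Y)) := by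
            gcongr
        _ ≤ κ * m ^ 2 := by linarith
    have h4 : 2 * ((c / m) * ((a / m) * e)) ≤ 2 * κ * m ^ 2 + δ * m ^ 2 := by
      nlinarith
    have h5 : (c / m) * ((a / m) * e) = a * c * e / m ^ 2 := by field_simp
    rw [h5] at h4
    have h6 : a * c * e ≤ (κ + δ / 2) * m ^ 4 := by
      have : a * c * e / m ^ 2 ≤ (κ + δ / 2) * m ^ 2 := by linarith
      rw [div_le_iff₀ (by positivity)] at this
      calc a * c * e ≤ (κ + δ / 2) * m ^ 2 * m ^ 2 := this
        _ = _ := by ring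
    calc e ^ 2 = e * e := sq e
      _ ≤ (a * c) * e := mul_le_mul_of_nonneg_right hle he0
      _ ≤ _ := h6
  · intro i
    have x0 := ind_nonneg X i
    have x1 := ind_le_one X i
    have y0 := ind_nonneg Y i
    have y1 := ind_le_one Y i
    simp only [Pi.add_apply, Pi.smul_apply, smul_eq_mul]
    have u0 : 0 ≤ c / m * ind X i := mul_nonneg hc2 x0
    have u1 : c / m * ind X i ≤ 1 := by
      calc c / m * ind X i ≤ 1 * 1 := mul_le_mul hc1 x1 x0 zero_le_one
        _ = 1 := one_mul 1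
    have w0 : 0 ≤ a / m * ind Y i := mul_nonneg ha2 y0
    have w1 : a / m * ind Y i ≤ 1 := by
      calc a / m * ind Y i ≤ 1 * 1 := mul_le_mul ha1 y1 y0 zero_le_one
        _ = 1 := one_mul 1
    rw [abs_le]
    constructor <;> nlinarith
  · simp only [Pi.add_apply, Pi.smul_apply, smul_eq_mul, sum_add_distrib, ← mul_sum, sum_ind]
    rw [← ha, ← hc]; ring

/-- The number of 4-cycles (homomorphisms) is large. -/
lemma four {b : ι → ι → ℝ} (hb : ∀ i j, b i j = b j i) {m : ℝ}
    (hm : (Fintype.card ι : ℝ) = m) (hm0 : 0 < m) (hb0 : ∀ i j, 0 ≤ b i j) :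
    (∑ i, ∑ j, b i j) ^ 4 ≤ m ^ 4 * ∑ u, ∑ v, b u v * ∑ x, ∑ y, b u x * b x y * b v y := by
  set C : ι → ι → ℝ := fun v x => ∑ u, b v u * b u x with hC
  have hCs : ∀ v x, C v x = C x v := by
    intro v x
    refine sum_congr rfl fun u _ => ?_
    rw [hb v u, hb u x]; ring
  set E := ∑ i, ∑ j, b i j with hE
  set P := ∑ v, ∑ x, C v x with hP
  have hT : ∑ u, ∑ v, b u v * ∑ x, ∑ y, b u x * b x y * b v y = ∑ v, ∑ x, C v x ^ 2 := by
    have e1 : ∀ v x, C v x ^ 2 = ∑ u, ∑ y, b v u * b u x * (b x y * b y v) := by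
      intro v x
      rw [sq]
      nth_rewrite 2 [hCs v x]
      rw [hC]
      simp only
      rw [sum_mul_sum]
    simp only [e1, mul_sum]
    rw [sum_comm]
    refine sum_congr rfl fun v _ => ?_
    rw [sum_comm]
    refine sum_congr rfl fun x _ => ?_
    refine sum_congr rfl fun u _ => ?_
    refine sum_congr rfl fun y _ => ?_
    rw [hb v u, hb y v]; ring
  rw [hT]
  have h1 : E ^ 2 ≤ m * P := by
    have e2 : P = ∑ u, (∑ x, b u x) ^ 2 := by
      rw [hP]
      simp only [hC]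
      have : ∀ v, ∑ x, ∑ u, b v u * b u x = ∑ u, b v u * ∑ x, b u x := by
        intro v
        rw [sum_comm]
        simp only [mul_sum]
      simp only [this]
      rw [sum_comm]
      refine sum_congr rfl fun u _ => ?_
      rw [← sum_mul, sq]
      congr 1
      exact sum_congr rfl fun v _ => hb v u
    rw [e2, hE, ← hm]
    have := sq_sum_le_card_mul_sum_sq (s := (univ : Finset ι)) (f := fun u => ∑ x, b u x)
    simpa using this
  have h2 : P ^ 2 ≤ m ^ 2 * ∑ v, ∑ x, C v x ^ 2 := by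
    have := sq_sum_le_card_mul_sum_sq (s := (univ : Finset (ι × ι))) (f := fun p => C p.1 p.2)
    rw [Fintype.sum_prod_type, Fintype.sum_prod_type] at this
    rw [card_univ, Fintype.card_prod, Nat.cast_mul, hm] at this
    simpa [sq] using this
  have hP0 : 0 ≤ P := sum_nonneg fun v _ => sum_nonneg fun x _ => sum_nonneg fun u _ =>
    mul_nonneg (hb0 _ _) (hb0 _ _)
  calc E ^ 4 = (E ^ 2) ^ 2 := by ring
    _ ≤ (m * P) ^ 2 := by
        apply pow_le_pow_left₀ (sq_nonneg E) h1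
    _ = m ^ 2 * P ^ 2 := by ring
    _ ≤ m ^ 2 * (m ^ 2 * ∑ v, ∑ x, C v x ^ 2) := by gcongr
    _ = _ := by ring

/-- Some neighbourhood is dense. -/
theorem key {A : ι → ι → ℝ} (hs : ∀ i j, A i j = A j i) (h01 : ∀ i j, A i j = 0 ∨ A i j = 1)
    {m q δ : ℝ} (hm : (Fintype.card ι : ℝ) = m) (hm0 : 0 < m) (hq : 0 < q) (hδ : δ ≤ q ^ 6 / 4)
    (NP : ∀ t : ι → ℝ, (∀ i, |t i| ≤ 1) → ∑ i, t i = 0 → - δ * m ^ 2 ≤ B A t t)
    (S : Finset ι) (hS : q * m ^ 2 ≤ B A (ind S) (ind S)) :
    ∃ v ∈ S, q ^ 6 / 4 * m ^ 2 ≤ B A (ind (nb A S v)) (ind (nb A S v)) := by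
  by_contra hcon
  push Not at hcon
  set b : ι → ι → ℝ := fun i j => A i j * ind S i * ind S j with hbdef
  have hb : ∀ i j, b i j = b j i := by
    intro i j; simp only [hbdef]; rw [hs i j]; ring
  have hA0 : ∀ i j, 0 ≤ A i j := by
    intro i j; rcases h01 i j with h | h <;> rw [h] <;> norm_num
  have hb0 : ∀ i j, 0 ≤ b i j := by
    intro i j
    exact mul_nonneg (mul_nonneg (hA0 i j) (ind_nonneg S i)) (ind_nonneg S j)
  set E := B A (ind S) (ind S) with hE
  have hE' : E = ∑ i, ∑ j, b i j := rfl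
  have hE0 : 0 < E := lt_of_lt_of_le (by positivity) hS
  have h4 := four hb hm hm0 hb0
  rw [← hE'] at h4
  -- the inner sums are small
  have hsmall : ∀ u v, b u v * ∑ x, ∑ y, b u x * b x y * b v y ≤ b u v * (7 / 8 * q ^ 3 * m ^ 2) := by
    intro u v
    by_cases hu : u ∈ S
    swap
    · have : b u v = 0 := by simp [hbdef, ind, hu]
      rw [this]; simp
    by_cases hv : v ∈ S
    swap
    · have : b u v = 0 := by simp [hbdef, ind, hv]
      rw [this]; simp
    refine mul_le_mul_of_nonneg_left ?_ (hb0 u v)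
    have e1 : ∑ x, ∑ y, b u x * b x y * b v y = B A (ind (nb A S u)) (ind (nb A S v)) := by
      simp only [B]
      refine sum_congr rfl fun x _ => sum_congr rfl fun y _ => ?_
      rw [ind_nb h01, ind_nb h01]
      simp only [hbdef]
      have iu : ind S u = 1 := by simp [ind, hu]
      have iv : ind S v = 1 := by simp [ind, hv]
      rw [iu, iv]
      have hx := ind_sq S x
      have hy := ind_sq S y
      calc A u x * 1 * ind S x * (A x y * ind S x * ind S y) * (A v y * 1 * ind S y)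
          = A u x * (ind S x * ind S x) * A x y * (ind S y * ind S y) * A v y := by ring
        _ = _ := by rw [hx, hy]; ring
    rw [e1]
    have hp := pair hs h01 hm hm0 NP (nb A S u) (nb A S v) (hcon u hu).le (hcon v hv).le
    have h5 : (B A (ind (nb A S u)) (ind (nb A S v))) ^ 2 ≤ (7 / 8 * q ^ 3 * m ^ 2) ^ 2 := by
      refine hp.trans ?_
      have h6 : 0 < q ^ 6 * m ^ 4 := by positivity
      have h7 : (q ^ 6 / 4 + δ / 2) * m ^ 4 ≤ 3 / 8 * q ^ 6 * m ^ 4 := by
        have : q ^ 6 / 4 + δ / 2 ≤ 3 / 8 * q ^ 6 := by linarith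
        gcongr
      nlinarith
    exact abs_le_of_sq_le_sq' h5 (by positivity) |>.2
  have hT : ∑ u, ∑ v, b u v * ∑ x, ∑ y, b u x * b x y * b v y ≤ E * (7 / 8 * q ^ 3 * m ^ 2) := by
    rw [hE', sum_mul]
    refine sum_le_sum fun u _ => ?_
    rw [sum_mul]
    exact sum_le_sum fun v _ => hsmall u v
  have h8 : E ^ 4 ≤ E * (7 / 8 * q ^ 3 * m ^ 6) := by
    calc E ^ 4 ≤ m ^ 4 * _ := h4
      _ ≤ m ^ 4 * (E * (7 / 8 * q ^ 3 * m ^ 2)) := by gcongr
      _ = _ := by ring
  have h9 : E ^ 3 ≤ 7 / 8 * q ^ 3 * m ^ 6 := by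
    have : E * E ^ 3 ≤ E * (7 / 8 * q ^ 3 * m ^ 6) := by
      calc E * E ^ 3 = E ^ 4 := by ring
        _ ≤ _ := h8
    exact le_of_mul_le_mul_left this hE0
  have h10 : (q * m ^ 2) ^ 3 ≤ E ^ 3 := pow_le_pow_left₀ (by positivity) hS 3
  have h11 : 0 < q ^ 3 * m ^ 6 := by positivity
  nlinarith

end Pool.Agent.TH853.HS
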