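import Mathlib
import Pool.Agent.TH853.HS.Count

/-!
Graphs all of whose half-sets span at least the average number of edges contain large cliques.
-/

set_option autoImplicit false
set_option linter.unusedSectionVars false
set_option linter.unusedSimpArgs false

namespace Pool.Agent.TH853.HS

open Finset

variable {ι : Type*} [Fintype ι] [DecidableEq ι]

/-- The adjacency form. -/
noncomputable def adj (G : SimpleGraph ι) : ι → ι → ℝ :=
  open Classical in fun i j => if G.Adj i j then 1 else 0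

lemma adj_symm (G : SimpleGraph ι) (i j : ι) : adj G i j = adj G j i := by
  unfold adj
  by_cases h : G.Adj i j
  · simp [h, h.symm]
  · have h' : ¬ G.Adj j i := fun h' => h h'.symm
    simp [h, h']

lemma adj_01 (G : SimpleGraph ι) (i j : ι) : adj G i j = 0 ∨ adj G i j = 1 := by
  unfold adj; split_ifs <;> simp

lemma adj_self (G : SimpleGraph ι) (i : ι) : adj G i i = 0 := by
  unfold adj; simp

lemma adj_eq_one (G : SimpleGraph ι) (i j : ι) : adj G i j = 1 ↔ G.Adj i j := by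
  unfold adj; split_ifs with h <;> simp [h]

lemma sum_adj (G : SimpleGraph ι) : ∑ i, ∑ j, adj G i j = 2 * (G.edgeSet.ncard : ℝ) := by
  classical
  have h1 := G.sum_degrees_eq_twice_card_edges
  have h2 : (G.edgeSet.ncard : ℕ) = G.edgeFinset.card := by
    rw [← SimpleGraph.coe_edgeFinset, Set.ncard_coe_finset]
  rw [h2]
  have h3 : (∑ v, (G.degree v : ℝ)) = 2 * (G.edgeFinset.card : ℝ) := by exact_mod_cast h1
  rw [← h3]
  refine sum_congr rfl fun i _ => ?_
  unfold adj
  rw [Finset.sum_boole]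
  congr 2
  ext j
  simp

/-- The graph of the edges inside `W`. -/
def inside (G : SimpleGraph ι) (W : Finset ι) : SimpleGraph ι where
  Adj i j := G.Adj i j ∧ i ∈ W ∧ j ∈ W
  symm := ⟨fun i j h => ⟨h.1.symm, h.2.2, h.2.1⟩⟩
  loopless := ⟨fun i h => G.loopless.irrefl i h.1⟩

lemma inside_edges (G : SimpleGraph ι) (W : Finset ι) :
    (inside G W).edgeSet = {e : Sym2 ι | e ∈ G.edgeSet ∧ ∀ v ∈ e, v ∈ W} := by
  ext e
  induction e using Sym2.ind with
  | _ x y => simp [inside]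

lemma B_ind (G : SimpleGraph ι) (W : Finset ι) :
    B (adj G) (ind W) (ind W) =
      2 * (({e : Sym2 ι | e ∈ G.edgeSet ∧ ∀ v ∈ e, v ∈ W}).ncard : ℝ) := by
  rw [← inside_edges, ← sum_adj]
  refine sum_congr rfl fun i _ => sum_congr rfl fun j _ => ?_
  unfold adj inside ind
  by_cases h : G.Adj i j <;> by_cases hi : i ∈ W <;> by_cases hj : j ∈ W <;> simp [h, hi, hj]

/-- The half-set condition makes the adjacency form nearly nonnegative on balanced vectors. -/
theorem balanced {n : ℕ} (G : SimpleGraph (Fin n)) {c ε : ℝ} (hc : 0 < c)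
    (hE : G.edgeSet.ncard = ⌊c * (n : ℝ) ^ 2⌋₊)
    (hW : ∀ W : Finset (Fin n), W.card = n / 2 →
      (1 - ε) * c * ((n : ℝ) / 2) ^ 2 ≤
        (({e : Sym2 (Fin n) | e ∈ G.edgeSet ∧ ∀ v ∈ e, v ∈ W}).ncard : ℝ))
    (t : Fin n → ℝ) (ht : ∀ i, |t i| ≤ 1) (hsum : ∑ i, t i = 0) :
    - (2 * ε * c) * (n : ℝ) ^ 2 ≤ B (adj G) t t := by
  have hn : ∀ i j, 0 ≤ adj G i j := by
    intro i j; rcases adj_01 G i j with h | h <;> rw [h] <;> norm_num
  set one : Fin n → ℝ := fun _ => 1 with hone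
  have bound : ∀ x : Fin n → ℝ, (∀ i, 0 ≤ x i ∧ x i ≤ 1) → ∑ i, x i = (n : ℝ) / 2 →
      2 * ((1 - ε) * c * ((n : ℝ) / 2) ^ 2) ≤ B (adj G) x x := by
    intro x hx hs
    obtain ⟨W, h1, h2, h3⟩ := pipage (adj_symm G) (adj_self G) hn _ x rfl hx
    rw [hs] at h1 h2
    have hcard : W.card = n / 2 := by
      have h4 : 2 * W.card ≤ n := by
        have : (2 * W.card : ℝ) ≤ n := by linarith
        exact_mod_cast this
      have h5 : n < 2 * W.card + 2 := by
        have : (n : ℝ) < 2 * W.card + 2 := by linarith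
        exact_mod_cast this
      omega
    have h6 := hW W hcard
    rw [B_ind] at h3
    linarith
  have hx : ∀ i, -1 ≤ t i ∧ t i ≤ 1 := fun i => abs_le.mp (ht i)
  have e1 : ∑ i : Fin n, (one i) = n := by simp [hone]
  have b1 := bound ((1 / 2 : ℝ) • (one + t)) (by
      intro i
      simp only [Pi.smul_apply, Pi.add_apply, smul_eq_mul, hone]
      constructor <;> linarith [(hx i).1, (hx i).2]) (by
      simp only [Pi.smul_apply, Pi.add_apply, smul_eq_mul, ← mul_sum, sum_add_distrib, hsum, e1]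
      ring)
  have b2 := bound ((1 / 2 : ℝ) • (one + (-1 : ℝ) • t)) (by
      intro i
      simp only [Pi.smul_apply, Pi.add_apply, smul_eq_mul, hone]
      constructor <;> linarith [(hx i).1, (hx i).2]) (by
      simp only [Pi.smul_apply, Pi.add_apply, smul_eq_mul, ← mul_sum, sum_add_distrib, hsum, e1]
      ring)
  rw [B_smul_left, B_smul_right, B_add_left, B_add_right, B_add_right,
    B_symm (adj_symm G) t one] at b1
  rw [B_smul_left, B_smul_right, B_add_left, B_add_right, B_add_right, B_smul_left, B_smul_left,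
    B_smul_right, B_smul_right, B_symm (adj_symm G) t one] at b2
  have h1 : B (adj G) one one ≤ 2 * (c * (n : ℝ) ^ 2) := by
    have : B (adj G) one one = 2 * (G.edgeSet.ncard : ℝ) := by
      rw [← sum_adj]; simp [B, hone]
    rw [this, hE]
    have := Nat.floor_le (show 0 ≤ c * (n : ℝ) ^ 2 by positivity)
    linarith
  nlinarith

/-- Iteration of the counting step. -/
theorem iterate (k : ℕ) : ∀ q : ℝ, 0 < q → ∃ δ : ℝ, 0 < δ ∧ ∀ (n : ℕ) (G : SimpleGraph (Fin n)),
    0 < n →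
    (∀ t : Fin n → ℝ, (∀ i, |t i| ≤ 1) → ∑ i, t i = 0 → - δ * (n : ℝ) ^ 2 ≤ B (adj G) t t) →
    ∀ S : Finset (Fin n), q * (n : ℝ) ^ 2 ≤ B (adj G) (ind S) (ind S) →
    ∃ s ⊆ S, G.IsNClique k s := by
  induction k with
  | zero =>
    intro q hq
    exact ⟨1, one_pos, fun n G _ _ S _ => ⟨∅, empty_subset _, by simp [SimpleGraph.isNClique_iff]⟩⟩
  | succ k ih =>
    intro q hq
    obtain ⟨δ', hδ', h⟩ := ih (q ^ 6 / 4) (by positivity)
    refine ⟨min (q ^ 6 / 4) δ', lt_min (by positivity) hδ', ?_⟩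
    intro n G hn NP S hS
    have hm : (Fintype.card (Fin n) : ℝ) = n := by simp
    have hm0 : (0 : ℝ) < n := by exact_mod_cast hn
    obtain ⟨v, hv, hd⟩ := key (adj_symm G) (adj_01 G) hm hm0 hq (min_le_left _ _) NP S hS
    obtain ⟨s, hs, hc⟩ := h n G hn (fun t h1 h2 => by
      refine le_trans ?_ (NP t h1 h2)
      have : min (q ^ 6 / 4) δ' ≤ δ' := min_le_right _ _
      have : 0 ≤ (n : ℝ) ^ 2 := by positivity
      nlinarith) (nb (adj G) S v) hd
    have hnb : ∀ w ∈ nb (adj G) S v, w ∈ S ∧ G.Adj v w := by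
      intro w hw
      unfold nb at hw
      rw [mem_filter, adj_eq_one] at hw
      exact hw
    refine ⟨insert v s, ?_, ?_⟩
    · intro w hw
      rcases mem_insert.mp hw with h1 | h1
      · rw [h1]; exact hv
      · exact (hnb w (hs h1)).1
    · exact hc.insert fun w hw => (hnb w (hs hw)).2

theorem main : ∀ c : ℝ, 0 < c → ∀ k : ℕ, ∃ ε : ℝ, 0 < ε ∧ ∃ N : ℕ, ∀ n : ℕ, N ≤ n →
      ∀ G : SimpleGraph (Fin n),
        G.edgeSet.ncard = ⌊c * (n : ℝ) ^ 2⌋₊ →
        (∀ W : Finset (Fin n), W.card = n / 2 →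
          (1 - ε) * c * ((n : ℝ) / 2) ^ 2 ≤
            (({e : Sym2 (Fin n) | e ∈ G.edgeSet ∧ ∀ v ∈ e, v ∈ W}).ncard : ℝ)) →
        ∃ s : Finset (Fin n), G.IsNClique k s := by
  intro c hc k
  obtain ⟨δ, hδ, h⟩ := iterate k c hc
  refine ⟨δ / (2 * c), by positivity, ⌈2 / c⌉₊ + 1, ?_⟩
  intro n hn G hE hW
  have hn1 : 1 ≤ n := by omega
  have hn0 : 0 < n := by omega
  have hn2 : 2 / c ≤ n := by
    have h1 := Nat.le_ceil (2 / c)
    have h2 : ((⌈2 / c⌉₊ + 1 : ℕ) : ℝ) ≤ n := by exact_mod_cast hn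
    push_cast at h2
    linarith
  obtain ⟨s, _, hs⟩ := h n G hn0 (fun t h1 h2 => by
      have := balanced G hc hE hW t h1 h2
      have e : 2 * (δ / (2 * c)) * c = δ := by field_simp
      rw [e] at this
      exact this) univ (by
      rw [B_ind]
      have e : {e : Sym2 (Fin n) | e ∈ G.edgeSet ∧ ∀ v ∈ e, v ∈ (univ : Finset (Fin n))} =
          G.edgeSet := by ext e; simp
      rw [e, hE]
      have h1 := Nat.lt_floor_add_one (c * (n : ℝ) ^ 2)
      have h2 : (1 : ℝ) ≤ n := by exact_mod_cast hn1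
      have h3 : 2 ≤ c * (n : ℝ) := by
        rw [div_le_iff₀ hc] at hn2; linarith
      have h4 : 2 ≤ c * (n : ℝ) ^ 2 := by nlinarith
      linarith)
  exact ⟨s, hs⟩

end Pool.Agent.TH853.HS
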